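import Mathlib
import Pool.Agent.W507.DelPezzoDefs
import Pool.Agent.W507.S9
import Pool.Agent.W507.S81
import Pool.Agent.W507.S80
import Pool.Agent.W507.S7
import Pool.Agent.W507.S6
import Pool.Agent.W507.S5
import Pool.Agent.W507.S4
import Pool.Agent.W507.S3

/-!
# Every del Pezzo surface satisfies strong interpolation

The definitions are in `Pool.Agent.W507.DelPezzoDefs`. For every type `T` of del Pezzo surfaces of
degree `d ≥ 3` (the blow-up of the plane at `r ≤ 6` points in general position, with `d = 9 - r`,
and the product of two lines, with `d = 8`), the family of anticanonically embedded surfaces of
this type in projective `d`-space satisfies strong interpolation: for all integers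
`1 ≤ lam i ≤ d - 2` with sum `d ^ 2 + 10`, the dimension of the family, and general linear spaces
of dimensions `d - 2 - lam i` there is a surface of the family that meets all of them.
-/

set_option autoImplicit false

namespace Pool.Agent.Results.MP_d54ed7_ag.StrongInterpolation

open Pool.Agent.W507.DelPezzo

theorem result (k : Type*) [Field k] [IsAlgClosed k] [CharZero k] (T : Kind) :
    StrongInterpolation (T.degree ^ 2 + 10) {Y | IsDelPezzo (k := k) T Y} := by
  cases T with
  | quadric => exact strong_quadric
  | plane r =>
    fin_cases r
    · exact strong0
    · exact strong1
    · exact strong2
    · exact strong6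
    · exact strong4
    · exact strong5
    · exact strong6pt

end Pool.Agent.Results.MP_d54ed7_ag.StrongInterpolation
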